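import Pool.Agent.helper68.FY.Spec
import Pool.Agent.helper47.RA.Num

/-!
Row EN of the project fy (MP_f6e9a2_nt): the energy bound.
-/

set_option autoImplicit false

namespace Pool.Agent.helper68.FY

open Finset

theorem EN_cnt_empty {X : Type} (r : V4 → X → X → Prop) (G : ℕ) :
    cnt (∅ : Finset X) r G = 0 := by
  unfold cnt
  apply Finset.sum_eq_zero
  intro g _
  simp [pc]

theorem EN_log (C e : ℝ) (hC : ∀ n : ℕ, 0 < n → ((n.divisors.card : ℕ) : ℝ) ≤ C * (n : ℝ) ^ e)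
    (hC1 : 1 ≤ C) (he : 0 < e) (N p : ℕ) (hN : N ≠ 0) (hp : N ≤ p) :
    (1 : ℝ) + (Nat.log 2 N : ℝ) ≤ C * (p : ℝ) ^ e := by
  have h1 := hC (2 ^ Nat.log 2 N) (by positivity)
  have h2 : (2 ^ Nat.log 2 N).divisors.card = Nat.log 2 N + 1 := by
    rw [Nat.divisors_prime_pow Nat.prime_two, Finset.card_map, Finset.card_range]
  rw [h2] at h1
  have h3 : (2 ^ Nat.log 2 N : ℕ) ≤ p := (Nat.pow_log_le_self 2 hN).trans hp
  have h4 : (((2 ^ Nat.log 2 N : ℕ) : ℝ)) ^ e ≤ (p : ℝ) ^ e :=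
    Real.rpow_le_rpow (Nat.cast_nonneg _) (by exact_mod_cast h3) he.le
  calc (1 : ℝ) + (Nat.log 2 N : ℝ) = ((Nat.log 2 N + 1 : ℕ) : ℝ) := by push_cast; ring
    _ ≤ C * ((2 ^ Nat.log 2 N : ℕ) : ℝ) ^ e := h1
    _ ≤ _ := mul_le_mul_of_nonneg_left h4 (by linarith)

/-- Row EN. -/
theorem EN (hA : ENA_stmt) (hB : ENB_stmt) : EN_stmt := by
  intro ε hε
  obtain ⟨C₁, hC₁, hA1⟩ := hA (ε / 2) (by positivity)
  obtain ⟨C₂, hC₂, hd⟩ := Pool.Agent.helper47.RA.card_divisors_le (ε / 6) (by positivity)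
  set K : ℝ := 2 * C₁ + 6144 * C₂ ^ 3 with hK
  have hC23 : (1 : ℝ) ≤ C₂ ^ 3 := one_le_pow₀ hC₂
  have hK1 : 1 ≤ K := by rw [hK]; linarith
  have hK2 : 2 * C₁ ≤ K := by rw [hK]; linarith
  have hK3 : 6144 * C₂ ^ 3 ≤ K := by rw [hK]; linarith
  refine ⟨K, hK1, ?_⟩
  intro p hpr G B hG
  have hp1 : (1 : ℝ) ≤ p := by
    have := hpr.out.one_lt.le
    exact_mod_cast this
  have hp0 : (0 : ℝ) < p := by linarith
  set M : ℝ := (B.card : ℝ) with hM
  have hM0 : 0 ≤ M := Nat.cast_nonneg _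
  set P : ℝ := (p : ℝ) ^ (ε / 2) with hP
  have hP0 : 0 < P := Real.rpow_pos_of_pos hp0 _
  have hPe : P ≤ (p : ℝ) ^ ε := Real.rpow_le_rpow_of_exponent_le hp1 (by linarith)
  have hP1 : 1 ≤ P := Real.one_le_rpow hp1 (by positivity)
  set u : ℝ := (p : ℝ) ^ (ε / 6) with hu
  have hu0 : 0 < u := Real.rpow_pos_of_pos hp0 _
  have hu3 : u ^ 3 = P := by
    rw [hu, hP, ← Real.rpow_natCast, ← Real.rpow_mul hp0.le]
    congr 1
    push_cast
    ring
  have hq2 : 0 < (p : ℝ) ^ (1 / 2 : ℝ) := Real.rpow_pos_of_pos hp0 _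
  have hq4 : 0 < (p : ℝ) ^ (1 / 4 : ℝ) := Real.rpow_pos_of_pos hp0 _
  have hq42 : ((p : ℝ) ^ (1 / 4 : ℝ)) ^ 2 = (p : ℝ) ^ (1 / 2 : ℝ) := by
    rw [← Real.rpow_natCast, ← Real.rpow_mul hp0.le]
    congr 1
    norm_num
  set Y : ℝ := 1 + M ^ 2 / (p : ℝ) ^ (1 / 2 : ℝ) with hY
  have hY1 : 1 ≤ Y := by
    rw [hY]
    have : 0 ≤ M ^ 2 / (p : ℝ) ^ (1 / 2 : ℝ) := by positivity
    linarith
  set Z : ℝ := 1 + M / (p : ℝ) ^ (1 / 4 : ℝ) with hZ
  have hZ1 : 1 ≤ Z := by
    rw [hZ]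
    have : 0 ≤ M / (p : ℝ) ^ (1 / 4 : ℝ) := by positivity
    linarith
  have hYZ : Y ≤ Z ^ 2 := by
    have h1 : (M / (p : ℝ) ^ (1 / 4 : ℝ)) ^ 2 = M ^ 2 / (p : ℝ) ^ (1 / 2 : ℝ) := by
      rw [div_pow, hq42]
    have h2 : 0 ≤ M / (p : ℝ) ^ (1 / 4 : ℝ) := by positivity
    rw [hY, hZ, ← h1]
    nlinarith
  rcases B.offDiag.eq_empty_or_nonempty with hemp | hne
  · -- no pairs
    rw [hemp, EN_cnt_empty]
    constructor
    · intro _
      rw [Nat.cast_zero]
      have := hY1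
      positivity
    · intro _
      rw [Nat.cast_zero]
      positivity
  · set S : ℝ := (B.offDiag.card : ℝ) with hS
    have hSpos : 0 < B.offDiag.card := Finset.card_pos.2 hne
    have hS0 : 0 < S := by
      rw [hS]
      exact_mod_cast hSpos
    have hSM : S = M ^ 2 - M := by
      rw [hS, hM, Finset.offDiag_card, Nat.cast_sub (Nat.le_mul_self _)]
      push_cast
      ring
    have hM2 : 2 ≤ M := by
      have h1 : 2 ≤ B.card := by
        by_contra hcon
        push Not at hcon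
        rw [Finset.offDiag_card] at hSpos
        interval_cases B.card <;> omega
      rw [hM]
      exact_mod_cast h1
    have hSM1 : S ≤ M ^ 2 := by rw [hSM]; linarith
    have hSM2 : M ^ 2 ≤ 2 * S := by rw [hSM]; nlinarith
    -- the constants of ENB
    have hBstep : ∀ (G : ℕ) (s : ℝ), 1 ≤ G → 28 * G ^ 4 < p → 0 ≤ s →
        (∀ G' : ℕ, 1 ≤ G' → G' ≤ 2 * G * G →
          (cnt B.offDiag (rp p) G' : ℝ) ≤ s * (G' : ℝ) ^ 2 * S) →
        (cnt B.offDiag (rp p) G : ℝ) ^ 2 ≤ (6144 * C₂ ^ 3 * P) * s * ((G : ℝ) ^ 2 * S) ^ 2 := by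
      intro G s hG hGp hs hall
      have hG2 : 1 ≤ G ^ 2 := Nat.one_le_pow _ _ hG
      have hG4 : G ^ 2 ≤ G ^ 4 := Nat.pow_le_pow_right hG (by norm_num)
      have hGG : 2 * G * G ≤ p := by nlinarith
      have h1 := hB p G ⌊C₂ * u⌋₊ B s hG (by nlinarith) (by
        intro n hn1 hn2
        apply Nat.le_floor
        refine (hd n hn1).trans ?_
        apply mul_le_mul_of_nonneg_left _ (by linarith)
        apply Real.rpow_le_rpow (Nat.cast_nonneg _) _ (by positivity)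
        have : n ≤ p := by omega
        exact_mod_cast this) hall
      have hDf : ((⌊C₂ * u⌋₊ : ℕ) : ℝ) ≤ C₂ * u := Nat.floor_le (by positivity)
      have hlog := EN_log C₂ (ε / 6) hd hC₂ (by positivity) (2 * G * G) p (by positivity) hGG
      have hlog0 : (0 : ℝ) ≤ 1 + (Nat.log 2 (2 * G * G) : ℝ) := by positivity
      have hD2 : ((⌊C₂ * u⌋₊ : ℕ) : ℝ) ^ 2 ≤ (C₂ * u) ^ 2 :=
        pow_le_pow_left₀ (Nat.cast_nonneg _) hDf 2
      have hprod : ((⌊C₂ * u⌋₊ : ℕ) : ℝ) ^ 2 * (1 + (Nat.log 2 (2 * G * G) : ℝ))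
          ≤ C₂ ^ 3 * P := by
        calc _ ≤ (C₂ * u) ^ 2 * (C₂ * u) := mul_le_mul hD2 hlog hlog0 (by positivity)
          _ = C₂ ^ 3 * u ^ 3 := by ring
          _ = _ := by rw [hu3]
      refine h1.trans ?_
      have hw : 0 ≤ 6144 * (s * ((G : ℝ) ^ 2 * S) ^ 2) := by positivity
      calc _ = (((⌊C₂ * u⌋₊ : ℕ) : ℝ) ^ 2 * (1 + (Nat.log 2 (2 * G * G) : ℝ)))
            * (6144 * (s * ((G : ℝ) ^ 2 * S) ^ 2)) := by rw [hS]; ring
        _ ≤ (C₂ ^ 3 * P) * (6144 * (s * ((G : ℝ) ^ 2 * S) ^ 2)) :=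
            mul_le_mul_of_nonneg_right hprod hw
        _ = _ := by ring
    -- the uniform bound
    have hunif : ∀ G : ℕ, 1 ≤ G → 7 * G ^ 2 < p →
        (cnt B.offDiag (rp p) G : ℝ) ≤ (K * P * Y) * (G : ℝ) ^ 2 * S := by
      intro G0 hG0 hG0p
      set I : Finset ℕ := (Finset.Icc 1 p).filter fun G => 7 * G ^ 2 < p with hI
      have hmemI : ∀ G : ℕ, 1 ≤ G → 7 * G ^ 2 < p → G ∈ I := by
        intro G h1 h2
        rw [hI, Finset.mem_filter, Finset.mem_Icc]
        refine ⟨⟨h1, ?_⟩, h2⟩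
        nlinarith
      let f : ℕ → ℝ := fun G => (cnt B.offDiag (rp p) G : ℝ) / ((G : ℝ) ^ 2 * S)
      obtain ⟨Gs, hGs, hmax⟩ := Finset.exists_max_image I f ⟨G0, hmemI G0 hG0 hG0p⟩
      rw [hI, Finset.mem_filter, Finset.mem_Icc] at hGs
      obtain ⟨⟨hs1, -⟩, hs2⟩ := hGs
      have hσ0 : 0 ≤ f Gs := by positivity
      have hfle : ∀ G : ℕ, 1 ≤ G → 7 * G ^ 2 < p →
          (cnt B.offDiag (rp p) G : ℝ) ≤ f Gs * (G : ℝ) ^ 2 * S := by
        intro G h1 h2
        have h3 := hmax G (hmemI G h1 h2)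
        have hG1 : (1 : ℝ) ≤ G := by exact_mod_cast h1
        have h4 : 0 < (G : ℝ) ^ 2 * S := by positivity
        have h5 := (div_le_iff₀ h4).1 h3
        linarith
      have hσ : f Gs ≤ K * P * Y := by
        have hGs1 : (1 : ℝ) ≤ Gs := by exact_mod_cast hs1
        have h4 : 0 < (Gs : ℝ) ^ 2 * S := by positivity
        by_cases hc : p ≤ 28 * Gs ^ 4
        · have h5 := hA1 p Gs B hs1 hs2 hc
          have h6 : f Gs ≤ 2 * C₁ * P * Y := by
            apply (div_le_iff₀ h4).2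
            refine h5.trans ?_
            have h7 : 0 ≤ C₁ * P * Y * (Gs : ℝ) ^ 2 := by positivity
            have h8 := mul_le_mul_of_nonneg_left hSM2 h7
            calc _ = C₁ * P * Y * (Gs : ℝ) ^ 2 * M ^ 2 := by rw [hP, hY, hM]
              _ ≤ _ := h8
              _ = _ := by ring
          refine h6.trans ?_
          have h9 : 0 ≤ P * Y := by positivity
          have h11 := mul_le_mul_of_nonneg_right hK2 h9
          linarith
        · push Not at hc
          have hall : ∀ G' : ℕ, 1 ≤ G' → G' ≤ 2 * Gs * Gs →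
              (cnt B.offDiag (rp p) G' : ℝ) ≤ f Gs * (G' : ℝ) ^ 2 * S := by
            intro G' h1 h2
            apply hfle G' h1
            have h3 : G' ^ 2 ≤ (2 * Gs * Gs) ^ 2 := Nat.pow_le_pow_left h2 2
            have h3' : (2 * Gs * Gs) ^ 2 = 4 * Gs ^ 4 := by ring
            omega
          have h5 := hBstep Gs (f Gs) hs1 hc hσ0 hall
          have h6 : (cnt B.offDiag (rp p) Gs : ℝ) = f Gs * ((Gs : ℝ) ^ 2 * S) :=
            (div_mul_cancel₀ _ h4.ne').symm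
          rw [h6, mul_pow] at h5
          have h7 : f Gs ^ 2 ≤ (6144 * C₂ ^ 3 * P) * f Gs :=
            le_of_mul_le_mul_right h5 (pow_pos h4 2)
          have h8 : f Gs ≤ 6144 * C₂ ^ 3 * P := by
            rcases hσ0.eq_or_lt with h0 | h0
            · rw [← h0]; positivity
            · apply le_of_mul_le_mul_right _ h0
              rw [← sq]
              exact h7
          refine h8.trans ?_
          have h9 := hK3
          calc 6144 * C₂ ^ 3 * P ≤ K * P := mul_le_mul_of_nonneg_right h9 hP0.le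
            _ = K * P * 1 := by ring
            _ ≤ K * P * Y := mul_le_mul_of_nonneg_left hY1 (by positivity)
      refine (hfle G0 hG0 hG0p).trans ?_
      have := mul_le_mul_of_nonneg_right hσ (show 0 ≤ (G0 : ℝ) ^ 2 * S by positivity)
      linarith
    constructor
    · intro h7
      refine (hunif G hG h7).trans ?_
      calc K * P * Y * (G : ℝ) ^ 2 * S ≤ K * P * Y * (G : ℝ) ^ 2 * M ^ 2 :=
            mul_le_mul_of_nonneg_left hSM1 (by positivity)
        _ = P * (K * Y * (G : ℝ) ^ 2 * M ^ 2) := by ring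
        _ ≤ (p : ℝ) ^ ε * (K * Y * (G : ℝ) ^ 2 * M ^ 2) :=
            mul_le_mul_of_nonneg_right hPe (by positivity)
        _ = _ := by ring
    · intro h28
      have hall : ∀ G' : ℕ, 1 ≤ G' → G' ≤ 2 * G * G →
          (cnt B.offDiag (rp p) G' : ℝ) ≤ (K * P * Y) * (G' : ℝ) ^ 2 * S := by
        intro G' h1 h2
        apply hunif G' h1
        have h3 : G' ^ 2 ≤ (2 * G * G) ^ 2 := Nat.pow_le_pow_left h2 2
        have h3' : (2 * G * G) ^ 2 = 4 * G ^ 4 := by ring
        omega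
      have h5 := hBstep G (K * P * Y) hG h28 (by positivity) hall
      have h9 := hK3
      have h10 : (6144 * C₂ ^ 3 * P) * (K * P * Y) * ((G : ℝ) ^ 2 * S) ^ 2
          ≤ (K * P * Z * (G : ℝ) ^ 2 * M ^ 2) ^ 2 := by
        calc _ ≤ (K * P) * (K * P * Z ^ 2) * ((G : ℝ) ^ 2 * M ^ 2) ^ 2 := by
              apply mul_le_mul
              · apply mul_le_mul
                · exact mul_le_mul_of_nonneg_right h9 hP0.le
                · exact mul_le_mul_of_nonneg_left hYZ (by positivity)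
                · positivity
                · positivity
              · apply pow_le_pow_left₀ (by positivity)
                exact mul_le_mul_of_nonneg_left hSM1 (by positivity)
              · positivity
              · positivity
          _ = _ := by ring
      have h11 := abs_le_of_sq_le_sq (h5.trans h10) (by positivity)
      have h12 := (le_abs_self _).trans h11
      refine h12.trans ?_
      calc K * P * Z * (G : ℝ) ^ 2 * M ^ 2 = P * (K * Z * (G : ℝ) ^ 2 * M ^ 2) := by ring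
        _ ≤ (p : ℝ) ^ ε * (K * Z * (G : ℝ) ^ 2 * M ^ 2) :=
            mul_le_mul_of_nonneg_right hPe (by positivity)
        _ = _ := by ring

end Pool.Agent.helper68.FY
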