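import Pool.Agent.helper68.FY.Spec

/-!
Row KEY of the project fy (MP_f6e9a2_nt).
-/

set_option autoImplicit false

namespace Pool.Agent.helper68.FY

open Finset

theorem KEY_bez (g : V4) (hg : prim g) : ∃ c : Fin 4 → ℤ, ∑ i, c i * g i = 1 := by
  have hP : (Ideal.span (Set.range g)).IsPrincipal := inferInstance
  obtain ⟨t, ht⟩ := hP.principal
  have hd : ∀ i, t ∣ g i := by
    intro i
    have h1 : g i ∈ Ideal.span (Set.range g) := Ideal.subset_span ⟨i, rfl⟩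
    rw [ht] at h1
    exact Ideal.mem_span_singleton.1 h1
  have h2 := hg t hd
  have h3 : (1 : ℤ) ∈ Ideal.span (Set.range g) := by
    rw [ht]
    apply Ideal.mem_span_singleton.2
    exact Int.natAbs_dvd_natAbs.1 (by rw [h2]; exact one_dvd _)
  obtain ⟨c, hc⟩ := Ideal.mem_span_range_iff_exists_fun.1 h3
  exact ⟨c, hc⟩

theorem KEY_pm (g h : V4) (hg : prim g) (hh : prim h) (hp : ∀ k l, pl g h k l = 0) :
    h = g ∨ h = -g := by
  obtain ⟨c, hc⟩ := KEY_bez g hg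
  set m : ℤ := ∑ i, c i * h i with hm
  have h1 : ∀ i, h i = m * g i := by
    intro i
    have h2 : ∀ j, h i * g j = g i * h j := by
      intro j
      have := hp i j
      unfold pl at this
      linarith
    calc h i = h i * ∑ j, c j * g j := by rw [hc, mul_one]
      _ = ∑ j, c j * (h i * g j) := by
          rw [Finset.mul_sum]
          exact Finset.sum_congr rfl fun j _ => by ring
      _ = ∑ j, c j * (g i * h j) := Finset.sum_congr rfl fun j _ => by rw [h2 j]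
      _ = m * g i := by
          rw [hm, Finset.sum_mul]
          exact Finset.sum_congr rfl fun j _ => by ring
  have h3 : m.natAbs = 1 := hh m fun i => ⟨g i, h1 i⟩
  rcases Int.natAbs_eq_iff.1 h3 with h4 | h4
  · left
    funext i
    rw [h1 i, h4]
    simp
  · right
    funext i
    rw [h1 i, h4]
    simp

theorem KEY_two (F : Finset V4) (h1 : ∀ g ∈ F, prim g)
    (h2 : ∀ x ∈ F, ∀ y ∈ F, ∀ k l, pl x y k l = 0) : F.card ≤ 2 := by
  rcases F.eq_empty_or_nonempty with h | ⟨g, hg⟩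
  · rw [h]; simp
  · have h3 : F ⊆ {g, -g} := by
      intro h hh
      rw [Finset.mem_insert, Finset.mem_singleton]
      exact KEY_pm g h (h1 g hg) (h1 h hh) (h2 g hg h hh)
    exact (Finset.card_le_card h3).trans Finset.card_le_two

theorem KEY_PB (G : ℕ) (g : V4) (hg : g ∈ PB G) : nm g ≤ G ∧ dt g ≠ 0 ∧ prim g := by
  simp only [PB, Finset.mem_filter] at hg
  obtain ⟨h1, h2, h3⟩ := hg
  refine ⟨?_, h2, h3⟩
  unfold box at h1
  rw [Fintype.mem_piFinset] at h1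
  unfold nm
  apply Finset.sup_le
  intro i _
  have h4 := Finset.mem_Icc.1 (h1 i)
  omega

theorem KEY_adj (φ : V3) (g : V4) (hg : dt g ≠ 0) (h : cp φ g = 0) : φ = 0 := by
  have h0 := congrFun h 0
  have h1 := congrFun h 1
  have h2 := congrFun h 2
  simp only [cp, Matrix.cons_val_zero, Matrix.cons_val_one, Matrix.cons_val, Pi.zero_apply] at h0 h1 h2
  have hd : dt g ^ 2 ≠ 0 := pow_ne_zero 2 hg
  unfold dt at hd
  funext i
  apply mul_left_cancel₀ hd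
  rw [Pi.zero_apply, mul_zero]
  fin_cases i
  · show (g 0 * g 3 - g 1 * g 2) ^ 2 * φ 0 = 0
    linear_combination (g 3 ^ 2) * h0 - (g 2 * g 3) * h1 + (g 2 ^ 2) * h2
  · show (g 0 * g 3 - g 1 * g 2) ^ 2 * φ 1 = 0
    linear_combination (-2 * g 1 * g 3) * h0 + (g 0 * g 3 + g 1 * g 2) * h1 - (2 * g 0 * g 2) * h2
  · show (g 0 * g 3 - g 1 * g 2) ^ 2 * φ 2 = 0
    linear_combination (g 1 ^ 2) * h0 - (g 0 * g 1) * h1 + (g 0 ^ 2) * h2

theorem KEY_cp_par (φ ψ : V3) (g : V4) (h : par φ ψ) : par (cp φ g) (cp ψ g) := by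
  have h01 := h 0 1
  have h02 := h 0 2
  have h12 := h 1 2
  intro i j
  fin_cases i <;> fin_cases j <;>
    simp only [cp, Matrix.cons_val_zero, Matrix.cons_val_one, Matrix.cons_val, Fin.zero_eta,
      Fin.mk_one, Fin.reduceFinMk]
  · linear_combination (g 0 ^ 2 * (g 0 * g 3 + g 1 * g 2) - (g 0 * g 2) * (2 * (g 0 * g 1))) * h01 +
      (g 0 ^ 2 * (2 * (g 2 * g 3)) - g 2 ^ 2 * (2 * (g 0 * g 1))) * h02 +
      ((g 0 * g 2) * (2 * (g 2 * g 3)) - g 2 ^ 2 * (g 0 * g 3 + g 1 * g 2)) * h12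
  · linear_combination (g 0 ^ 2 * (g 1 * g 3) - (g 0 * g 2) * (g 1 ^ 2)) * h01 +
      (g 0 ^ 2 * (g 3 ^ 2) - g 2 ^ 2 * (g 1 ^ 2)) * h02 +
      ((g 0 * g 2) * (g 3 ^ 2) - g 2 ^ 2 * (g 1 * g 3)) * h12
  · linear_combination -(g 0 ^ 2 * (g 0 * g 3 + g 1 * g 2) - (g 0 * g 2) * (2 * (g 0 * g 1))) * h01 -
      (g 0 ^ 2 * (2 * (g 2 * g 3)) - g 2 ^ 2 * (2 * (g 0 * g 1))) * h02 -
      ((g 0 * g 2) * (2 * (g 2 * g 3)) - g 2 ^ 2 * (g 0 * g 3 + g 1 * g 2)) * h12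
  · linear_combination ((2 * (g 0 * g 1)) * (g 1 * g 3) - (g 0 * g 3 + g 1 * g 2) * (g 1 ^ 2)) * h01 +
      ((2 * (g 0 * g 1)) * (g 3 ^ 2) - (2 * (g 2 * g 3)) * (g 1 ^ 2)) * h02 +
      ((g 0 * g 3 + g 1 * g 2) * (g 3 ^ 2) - (2 * (g 2 * g 3)) * (g 1 * g 3)) * h12
  · linear_combination -(g 0 ^ 2 * (g 1 * g 3) - (g 0 * g 2) * (g 1 ^ 2)) * h01 -
      (g 0 ^ 2 * (g 3 ^ 2) - g 2 ^ 2 * (g 1 ^ 2)) * h02 -
      ((g 0 * g 2) * (g 3 ^ 2) - g 2 ^ 2 * (g 1 * g 3)) * h12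
  · linear_combination -((2 * (g 0 * g 1)) * (g 1 * g 3) - (g 0 * g 3 + g 1 * g 2) * (g 1 ^ 2)) * h01 -
      ((2 * (g 0 * g 1)) * (g 3 ^ 2) - (2 * (g 2 * g 3)) * (g 1 ^ 2)) * h02 -
      ((g 0 * g 3 + g 1 * g 2) * (g 3 ^ 2) - (2 * (g 2 * g 3)) * (g 1 * g 3)) * h12

theorem KEY_symm (φ ψ : V3) (h : par φ ψ) : par ψ φ := fun i j => by
  have := h j i
  linarith

theorem KEY_trans (a b c : V3) (hb : b ≠ 0) (h1 : par a b) (h2 : par b c) : par a c := by
  obtain ⟨k, hk⟩ : ∃ k, b k ≠ 0 := by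
    by_contra hcon
    push Not at hcon
    exact hb (funext hcon)
  intro i j
  apply mul_left_cancel₀ hk
  apply mul_left_cancel₀ hk
  -- b k * (b k * (a i * c j)) = b k * (b k * (a j * c i))
  have e1 := h1 i k
  have e2 := h2 k j
  have e3 := h1 j k
  have e4 := h2 k i
  -- a i * b k = a k * b i ; b k * c j = b j * c k
  have e5 := h1 i j
  linear_combination (b k * c j) * e1 + (a k * b i) * e2 - (b k * c i) * e3 - (a k * b j) * e4

theorem KEY_norm (e₁ e₂ : V4) (μ : ℕ) (p : ℕ) (h : ∀ k l, |pl e₁ e₂ k l| ≤ μ)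
    (hp : 16 * μ ^ 2 < p) :
    (∀ i, 4 * f1 e₁ e₂ i ^ 2 < p) ∧ (∀ i, 4 * f2 e₁ e₂ i ^ 2 < p) := by
  have hp' : (16 : ℤ) * (μ : ℤ) ^ 2 < p := by exact_mod_cast hp
  have key : ∀ a : ℤ, |a| ≤ 2 * μ → 4 * a ^ 2 < p := by
    intro a ha
    have h1 : a ^ 2 ≤ (2 * μ : ℤ) ^ 2 := by
      rw [← sq_abs]
      exact pow_le_pow_left₀ (abs_nonneg _) ha 2
    nlinarith
  have hμ : (0 : ℤ) ≤ μ := Int.natCast_nonneg _
  have h1 : ∀ k l, |pl e₁ e₂ k l| ≤ 2 * μ := fun k l => (h k l).trans (by linarith)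
  constructor
  · intro i
    apply key
    fin_cases i
    · exact h1 0 2
    · show |pl e₁ e₂ 0 3 + pl e₁ e₂ 1 2| ≤ _
      have := abs_add_le (pl e₁ e₂ 0 3) (pl e₁ e₂ 1 2)
      have a1 := h 0 3
      have a2 := h 1 2
      linarith
    · exact h1 1 3
  · intro i
    apply key
    fin_cases i
    · exact h1 2 3
    · show |pl e₁ e₂ 1 2 - pl e₁ e₂ 0 3| ≤ _
      have := abs_sub (pl e₁ e₂ 1 2) (pl e₁ e₂ 0 3)
      have a1 := h 0 3
      have a2 := h 1 2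
      linarith
    · exact h1 0 1

/-- Row KEY. -/
theorem KEY (hL : LAT_stmt) (hF : FMD_stmt) (hR : FRM_stmt) (hP : PHI_stmt) : KEY_stmt := by
  intro p hpr G x y hG hGp hx hy F hFF
  have hp0 : (0 : ℝ) < p := by
    have := hpr.out.pos
    exact_mod_cast this
  have hs0 : 0 < Real.sqrt p := Real.sqrt_pos.2 hp0
  have hG0 : (1 : ℝ) ≤ G := by exact_mod_cast hG
  have hss : Real.sqrt p * Real.sqrt p = p := Real.mul_self_sqrt hp0.le
  have hFM := hF p x y hx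
  have hL1 := hL (Lam p x y) p G hG hGp hFM.1 hFM.2 F fun g hg =>
    ⟨(hFF g hg).2.1, (KEY_PB G g (hFF g hg).1).1⟩
  rcases hL1 with h1 | ⟨e₁, he1, e₂, he2, μ, hμ1, hμ2, hμ3, hout, hin⟩
  · have h2 := KEY_two F (fun g hg => (KEY_PB G g (hFF g hg).1).2.2) h1
    have h3 : (F.card : ℝ) ≤ 2 := by exact_mod_cast h2
    have h4 : 0 ≤ 320 * (G : ℝ) ^ 2 / Real.sqrt p := by positivity
    linarith
  · have hsplit := Finset.card_filter_add_card_filter_not (s := F)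
      (fun x => ∀ i j k, m3 e₁ e₂ x i j k = 0)
    have hsplit' : (F.card : ℝ) = ((F.filter fun x => ∀ i j k, m3 e₁ e₂ x i j k = 0).card : ℝ)
        + ((F.filter fun x => ¬ ∀ i j k, m3 e₁ e₂ x i j k = 0).card : ℝ) := by
      exact_mod_cast hsplit.symm
    have ho1 : ((F.filter fun x => ¬ ∀ i j k, m3 e₁ e₂ x i j k = 0).card : ℝ)
        ≤ 192 * (G : ℝ) ^ 2 / Real.sqrt p := by
      have h1 : ((F.filter fun x => ¬ ∀ i j k, m3 e₁ e₂ x i j k = 0).card : ℝ) * p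
          ≤ 192 * (G : ℝ) ^ 3 := by exact_mod_cast hout
      have hGs : (G : ℝ) ≤ Real.sqrt p := by
        apply Real.le_sqrt_of_sq_le
        have : (7 : ℝ) * (G : ℝ) ^ 2 < p := by exact_mod_cast hGp
        nlinarith
      rw [le_div_iff₀ hs0]
      have h2 : ((F.filter fun x => ¬ ∀ i j k, m3 e₁ e₂ x i j k = 0).card : ℝ) * Real.sqrt p
          * Real.sqrt p ≤ 192 * (G : ℝ) ^ 2 * Real.sqrt p := by
        calc _ = ((F.filter fun x => ¬ ∀ i j k, m3 e₁ e₂ x i j k = 0).card : ℝ) * p := by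
              rw [mul_assoc, hss]
          _ ≤ 192 * (G : ℝ) ^ 3 := h1
          _ = 192 * (G : ℝ) ^ 2 * G := by ring
          _ ≤ _ := mul_le_mul_of_nonneg_left hGs (by positivity)
      exact le_of_mul_le_mul_right h2 hs0
    have hi1 : ((F.filter fun x => ∀ i j k, m3 e₁ e₂ x i j k = 0).card : ℝ)
        ≤ 128 * (G : ℝ) ^ 2 / Real.sqrt p := by
      by_cases hc : 16 * μ ^ 2 < p
      · -- no in-plane element
        have hemp : (F.filter fun x => ∀ i j k, m3 e₁ e₂ x i j k = 0) = ∅ := by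
          rw [Finset.filter_eq_empty_iff]
          intro g hg hpl
          obtain ⟨k, l, hkl⟩ := hμ3
          have hne : ∃ k l, pl e₁ e₂ k l ≠ 0 := by
            refine ⟨k, l, fun h0 => ?_⟩
            rw [h0, abs_zero] at hkl
            have : (μ : ℤ) = 0 := hkl.symm
            omega
          obtain ⟨⟨v1, v2, v3, v4⟩, hv⟩ := hR p x y e₁ e₂ he1 he2 hne
          have hdt := (KEY_PB G g (hFF g hg).1).2.1
          obtain ⟨n1, n2, n3⟩ := hv g hpl hdt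
          obtain ⟨s1, s2⟩ := KEY_norm e₁ e₂ μ p hμ2 hc
          obtain ⟨q1, q2⟩ := (hP p x hx).1 (f1 e₁ e₂) ⟨n1, s1⟩ v1 v2
          obtain ⟨q3, q4⟩ := (hP p y hy).1 (f2 e₁ e₂) ⟨n2, s2⟩ v3 v4
          apply (hFF g hg).2.2
          refine ⟨q1, q3, ?_⟩
          unfold ri
          have t1 : par (cp (Phi p y) g) (cp (f2 e₁ e₂) g) :=
            KEY_cp_par _ _ g (KEY_symm _ _ q4)
          have t2 : par (cp (f2 e₁ e₂) g) (Phi p x) := KEY_trans _ _ _ n1 n3 q2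
          exact KEY_trans _ _ _ (fun h0 => n2 (KEY_adj _ g hdt h0)) t1 t2
        rw [hemp, Finset.card_empty, Nat.cast_zero]
        positivity
      · push Not at hc
        have hc' : (p : ℝ) ≤ 16 * (μ : ℝ) ^ 2 := by exact_mod_cast hc
        have hsm : Real.sqrt p ≤ 4 * μ := by
          apply Real.sqrt_le_iff.2
          refine ⟨by positivity, ?_⟩
          nlinarith
        have h1 : ((F.filter fun x => ∀ i j k, m3 e₁ e₂ x i j k = 0).card : ℝ) * μ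
          ≤ 32 * (G : ℝ) ^ 2 := by exact_mod_cast hin
        rw [le_div_iff₀ hs0]
        calc _ ≤ ((F.filter fun x => ∀ i j k, m3 e₁ e₂ x i j k = 0).card : ℝ) * (4 * μ) :=
              mul_le_mul_of_nonneg_left hsm (Nat.cast_nonneg _)
          _ = 4 * (((F.filter fun x => ∀ i j k, m3 e₁ e₂ x i j k = 0).card : ℝ) * μ) := by ring
          _ ≤ 4 * (32 * (G : ℝ) ^ 2) := by linarith
          _ = _ := by ring
    rw [hsplit']
    have e : 320 * (G : ℝ) ^ 2 / Real.sqrt p = 128 * (G : ℝ) ^ 2 / Real.sqrt p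
        + 192 * (G : ℝ) ^ 2 / Real.sqrt p := by ring
    linarith

end Pool.Agent.helper68.FY
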